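import Pool.Agent.Y80.KM.ADefs

set_option autoImplicit false

open scoped BigOperators TensorProduct

/-! Functoriality of Lie algebra homology for isomorphisms (job HFUN). -/

namespace Pool.Agent.Y815.KM.HFun

open Pool.Agent.Y80.KM ExteriorAlgebra

section

variable {k L L' : Type*} [CommRing k] [AddCommGroup L] [Module k L] [AddCommGroup L'] [Module k L']

/-- the map of exterior algebras -/
noncomputable def F (Ψ : L' →ₗ[k] L) : ExteriorAlgebra k L' →ₗ[k] ExteriorAlgebra k L :=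
  (ExteriorAlgebra.map Ψ).toLinearMap

theorem F_one (Ψ : L' →ₗ[k] L) : F Ψ 1 = 1 := map_one (ExteriorAlgebra.map Ψ)

theorem F_ι_mul (Ψ : L' →ₗ[k] L) (x : L') (w : ExteriorAlgebra k L') :
    F Ψ (ι k x * w) = ι k (Ψ x) * F Ψ w := by
  have h1 : F Ψ (ι k x * w) = ExteriorAlgebra.map Ψ (ι k x) * ExteriorAlgebra.map Ψ w :=
    map_mul (ExteriorAlgebra.map Ψ) _ _
  rw [h1, ExteriorAlgebra.map_apply_ι]
  rfl

theorem F_theta (Ψ : L' →ₗ[k] L) (D' : L' →ₗ[k] L') (D : L →ₗ[k] L)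
    (h : ∀ x, Ψ (D' x) = D (Ψ x)) (w : ExteriorAlgebra k L') :
    F Ψ (theta D' w) = theta D (F Ψ w) := by
  have h1 : (F Ψ) ∘ₗ theta D' = theta D ∘ₗ F Ψ := by
    apply linMap_ext
    · rw [LinearMap.comp_apply, LinearMap.comp_apply, theta_one, F_one, theta_one, map_zero]
    · intro x w hw
      rw [LinearMap.comp_apply, LinearMap.comp_apply] at hw ⊢
      rw [theta_ι_mul, map_add, F_ι_mul, F_ι_mul, F_ι_mul, theta_ι_mul, hw, h]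
  exact LinearMap.congr_fun h1 w

theorem F_power (Ψ : L' →ₗ[k] L) (p : ℕ) {w : ExteriorAlgebra k L'} (hw : w ∈ ⋀[k]^p L') :
    F Ψ w ∈ ⋀[k]^p L := by
  induction p generalizing w with
  | zero =>
    rw [power_zero, Submodule.one_eq_span, Submodule.mem_span_singleton] at hw ⊢
    obtain ⟨c, rfl⟩ := hw
    exact ⟨c, by rw [map_smul, F_one]⟩
  | succ p ih =>
    rw [power_succ] at hw ⊢
    induction hw using Submodule.mul_induction_on' with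
    | mem_mul_mem x hx y hy =>
      obtain ⟨x, rfl⟩ := hx
      rw [F_ι_mul]
      exact Submodule.mul_mem_mul ⟨_, rfl⟩ (ih hy)
    | add x _ y _ hx hy => rw [map_add]; exact add_mem hx hy

theorem F_inv (Ψ : L' →ₗ[k] L) (Φ : L →ₗ[k] L') (h : ∀ x, Φ (Ψ x) = x)
    (w : ExteriorAlgebra k L') : F Φ (F Ψ w) = w := by
  have h1 : F Φ ∘ₗ F Ψ = LinearMap.id := by
    apply linMap_ext
    · rw [LinearMap.comp_apply, F_one, F_one, LinearMap.id_apply]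
    · intro x w hw
      rw [LinearMap.comp_apply, LinearMap.id_apply] at hw ⊢
      rw [F_ι_mul, F_ι_mul, hw, h]
  exact LinearMap.congr_fun h1 w

end

section

variable {k L L' : Type*} [CommRing k] [LieRing L] [LieAlgebra k L] [LieRing L'] [LieAlgebra k L']

theorem F_ced (Ψ : L' →ₗ[k] L) (hΨ : ∀ x y, Ψ ⁅x, y⁆ = ⁅Ψ x, Ψ y⁆) (w : ExteriorAlgebra k L') :
    F Ψ (ced k L' w) = ced k L (F Ψ w) := by
  have h1 : (F Ψ) ∘ₗ ced k L' = ced k L ∘ₗ F Ψ := by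
    apply linMap_ext
    · rw [LinearMap.comp_apply, LinearMap.comp_apply, ced_one, F_one, ced_one, map_zero]
    · intro x w hw
      rw [LinearMap.comp_apply, LinearMap.comp_apply] at hw ⊢
      rw [ced_ι_mul, map_sub, F_ι_mul, F_ι_mul, ced_ι_mul, hw,
        F_theta Ψ (adL k L' x) (adL k L (Ψ x)) (fun y => by simpa [adL] using hΨ x y)]
  exact LinearMap.congr_fun h1 w

theorem F_cyc (Ψ : L' →ₗ[k] L) (hΨ : ∀ x y, Ψ ⁅x, y⁆ = ⁅Ψ x, Ψ y⁆) (p : ℕ)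
    {w : ExteriorAlgebra k L'} (hw : w ∈ cyc k L' p) : F Ψ w ∈ cyc k L p := by
  refine ⟨F_power Ψ p hw.1, ?_⟩
  have hw2 : ced k L' w = 0 := hw.2
  show ced k L (F Ψ w) = 0
  rw [← F_ced Ψ hΨ, hw2, map_zero]

theorem F_bdy (Ψ : L' →ₗ[k] L) (hΨ : ∀ x y, Ψ ⁅x, y⁆ = ⁅Ψ x, Ψ y⁆) (p : ℕ)
    {w : ExteriorAlgebra k L'} (hw : w ∈ bdy k L' p) : F Ψ w ∈ bdy k L p := by
  obtain ⟨v, hv, rfl⟩ := hw
  exact ⟨F Ψ v, F_power Ψ _ hv, (F_ced Ψ hΨ v).symm⟩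

/-- the map induced on homology -/
noncomputable def HF (Ψ : L' →ₗ[k] L) (hΨ : ∀ x y, Ψ ⁅x, y⁆ = ⁅Ψ x, Ψ y⁆) (p : ℕ) :
    LieHomology k L' p →ₗ[k] LieHomology k L p :=
  Submodule.mapQ _ _ ((F Ψ).restrict fun _ hw => F_cyc Ψ hΨ p hw) (by
    rintro ⟨w, hw⟩ h
    exact F_bdy Ψ hΨ p h)

theorem HF_mk (Ψ : L' →ₗ[k] L) (hΨ : ∀ x y, Ψ ⁅x, y⁆ = ⁅Ψ x, Ψ y⁆) (p : ℕ)
    (w : ExteriorAlgebra k L') (hw : w ∈ cyc k L' p) :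
    HF Ψ hΨ p (Submodule.Quotient.mk ⟨w, hw⟩) =
      Submodule.Quotient.mk ⟨F Ψ w, F_cyc Ψ hΨ p hw⟩ := rfl

theorem HF_inj (Ψ : L' →ₗ[k] L) (hΨ : ∀ x y, Ψ ⁅x, y⁆ = ⁅Ψ x, Ψ y⁆) (Φ : L →ₗ[k] L')
    (hΦ : ∀ x y, Φ ⁅x, y⁆ = ⁅Φ x, Φ y⁆) (h : ∀ x, Φ (Ψ x) = x) (p : ℕ) :
    Function.Injective (HF Ψ hΨ p) := by
  rw [← LinearMap.ker_eq_bot, LinearMap.ker_eq_bot']
  intro m hm
  obtain ⟨⟨w, hw⟩, rfl⟩ := Submodule.Quotient.mk_surjective _ m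
  rw [HF_mk] at hm
  have h1 : (⟨F Ψ w, F_cyc Ψ hΨ p hw⟩ : cyc k L p) ∈ (bdy k L p).submoduleOf (cyc k L p) :=
    (Submodule.Quotient.mk_eq_zero _).1 hm
  have h2 : F Ψ w ∈ bdy k L p := h1
  refine (Submodule.Quotient.mk_eq_zero _).2 ?_
  show w ∈ bdy k L' p
  rw [← F_inv Ψ Φ h w]
  exact F_bdy Φ hΦ p h2

theorem HF_hact (Ψ : L' →ₗ[k] L) (hΨ : ∀ x y, Ψ ⁅x, y⁆ = ⁅Ψ x, Ψ y⁆) (D' : L' →ₗ[k] L')
    (hD' : ∀ x y, D' ⁅x, y⁆ = ⁅D' x, y⁆ + ⁅x, D' y⁆) (D : L →ₗ[k] L)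
    (hD : ∀ x y, D ⁅x, y⁆ = ⁅D x, y⁆ + ⁅x, D y⁆) (h : ∀ x, Ψ (D' x) = D (Ψ x)) (p : ℕ)
    (m : LieHomology k L' p) : HF Ψ hΨ p (hact D' hD' p m) = hact D hD p (HF Ψ hΨ p m) := by
  obtain ⟨⟨w, hw⟩, rfl⟩ := Submodule.Quotient.mk_surjective _ m
  refine congrArg (Submodule.Quotient.mk (p := (bdy k L p).submoduleOf (cyc k L p))) ?_
  apply Subtype.ext
  exact F_theta Ψ D' D h w

end

theorem hasComp_transfer {k L L' : Type*} [Field k] [LieRing L] [LieAlgebra k L] [LieRing L']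
    [LieAlgebra k L'] (Ψ : L' ≃ₗ[k] L) (hΨ : ∀ x y, Ψ ⁅x, y⁆ = ⁅Ψ x, Ψ y⁆) {N : ℕ}
    (E : Sl N k → L →ₗ[k] L) (hE : ∀ X x y, E X ⁅x, y⁆ = ⁅E X x, y⁆ + ⁅x, E X y⁆)
    (E' : Sl N k → L' →ₗ[k] L') (hE' : ∀ X x y, E' X ⁅x, y⁆ = ⁅E' X x, y⁆ + ⁅x, E' X y⁆)
    (hEE : ∀ X x, Ψ (E' X x) = E X (Ψ x)) (p : ℕ) (h : HasComp E' hE' p) : HasComp E hE p := by
  have hΨ1 : ∀ x y, Ψ.toLinearMap ⁅x, y⁆ = ⁅Ψ.toLinearMap x, Ψ.toLinearMap y⁆ := hΨ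
  have hΨ2 : ∀ x y, Ψ.symm.toLinearMap ⁅x, y⁆ = ⁅Ψ.symm.toLinearMap x, Ψ.symm.toLinearMap y⁆ := by
    intro x y
    apply Ψ.injective
    show Ψ (Ψ.symm ⁅x, y⁆) = Ψ ⁅Ψ.symm x, Ψ.symm y⁆
    rw [hΨ, Ψ.apply_symm_apply, Ψ.apply_symm_apply, Ψ.apply_symm_apply]
  have hinj := HF_inj Ψ.toLinearMap hΨ1 Ψ.symm.toLinearMap hΨ2 (fun x => Ψ.symm_apply_apply x) p
  have hact' := fun X => HF_hact Ψ.toLinearMap hΨ1 (E' X) (hE' X) (E X) (hE X) (hEE X) p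
  rcases h with ⟨m, hm, hX⟩ | ⟨f, hf, hX⟩
  · left
    refine ⟨HF Ψ.toLinearMap hΨ1 p m, ?_, fun X => ?_⟩
    · intro h0
      apply hm
      apply hinj
      rw [h0, map_zero]
    · rw [← hact', hX, map_zero]
  · right
    refine ⟨HF Ψ.toLinearMap hΨ1 p ∘ₗ f, hinj.comp hf, fun X Y => ?_⟩
    rw [LinearMap.comp_apply, LinearMap.comp_apply, hX, hact']

end Pool.Agent.Y815.KM.HFun
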