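import Pool.Agent.Y80.KM.HStruct
import Pool.Agent.Y80.KM.CharDefs

set_option autoImplicit false

open scoped BigOperators

/-! Job CHI of project KM: the Euler characteristic `chi` in the coordinates of the simple
roots. -/

namespace Pool.Agent.Y815.KM

open Pool.Agent.Y80.KM

universe u

/-- The two ways to count the sets of basis vectors of given degree and weight agree. -/
theorem chi_eq {k L : Type u} [Field k] [LieRing L] [LieAlgebra k L] {N : ℕ}
    {I : Type u} (H : HData k L N I) (F : Finset I) (N0 n : ℕ) (hn : n ≤ N0)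
    (hF : ∀ i, i ∈ F ↔ (H.γ i).1 ≤ N0) {Γ' : Type*} [AddCommMonoid Γ'] (w : I → Γ') (g : Γ')
    (μ : Fin N → ℤ)
    (hw : ∀ S : Finset I, ∑ i ∈ S, w i = g ↔ ∑ i ∈ S, (H.γ i).2 = μ) :
    ∑ p ∈ Finset.range (F.card + 1), (-1) ^ p *
        ({S : Finset I | S ⊆ F ∧ S.card = p ∧ ∑ i ∈ S, (H.γ i).1 = n ∧
          ∑ i ∈ S, w i = g}.ncard : ℤ) = H.chi n μ := by
  classical
  have hγ : ∀ S : Finset I, ∑ i ∈ S, H.γ i = (n, μ) ↔
      (∑ i ∈ S, (H.γ i).1 = n ∧ ∑ i ∈ S, (H.γ i).2 = μ) := by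
    intro S
    rw [Prod.ext_iff, Prod.fst_sum, Prod.snd_sum]
  have hcard : ∀ S : Finset I, ∑ i ∈ S, (H.γ i).1 = n → S.card ≤ n := by
    intro S hS
    calc S.card = ∑ i ∈ S, 1 := by simp
      _ ≤ ∑ i ∈ S, (H.γ i).1 := Finset.sum_le_sum fun i _ => H.hpos i
      _ = n := hS
  have hsub : ∀ S : Finset I, ∑ i ∈ S, (H.γ i).1 = n → S ⊆ F := by
    intro S hS i hi
    rw [hF]
    calc (H.γ i).1 ≤ ∑ i ∈ S, (H.γ i).1 :=
          Finset.single_le_sum (f := fun i => (H.γ i).1) (fun _ _ => Nat.zero_le _) hi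
      _ = n := hS
      _ ≤ N0 := hn
  have hset : ∀ p : ℕ, {S : Finset I | S ⊆ F ∧ S.card = p ∧ ∑ i ∈ S, (H.γ i).1 = n ∧
      ∑ i ∈ S, w i = g} = {S : Finset I | S.card = p ∧ ∑ i ∈ S, H.γ i = (n, μ)} := by
    intro p
    ext S
    simp only [Set.mem_ofPred_eq, hγ, hw]
    constructor
    · rintro ⟨_, h2, h3, h4⟩; exact ⟨h2, h3, h4⟩
    · rintro ⟨h2, h3, h4⟩; exact ⟨hsub S h3, h2, h3, h4⟩
  have hempty : ∀ p : ℕ, (F.card < p ∨ n < p) →
      {S : Finset I | S.card = p ∧ ∑ i ∈ S, H.γ i = (n, μ)} = ∅ := by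
    intro p hp
    rw [Set.eq_empty_iff_forall_notMem]
    rintro S ⟨h1, h2⟩
    have h3 := ((hγ S).1 h2).1
    rcases hp with hp | hp
    · have := Finset.card_le_card (hsub S h3)
      omega
    · have := hcard S h3
      omega
  rw [HData.chi]
  simp_rw [hset]
  have key : ∀ m : ℕ, m ≤ max F.card n → (m = F.card ∨ m = n) →
      ∑ p ∈ Finset.range (m + 1), (-1) ^ p *
        ({S : Finset I | S.card = p ∧ ∑ i ∈ S, H.γ i = (n, μ)}.ncard : ℤ) =
      ∑ p ∈ Finset.range (max F.card n + 1), (-1) ^ p *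
        ({S : Finset I | S.card = p ∧ ∑ i ∈ S, H.γ i = (n, μ)}.ncard : ℤ) := by
    intro m hm hm'
    refine Finset.sum_subset (Finset.range_subset_range.2 (by omega)) ?_
    intro p _ hp
    rw [Finset.mem_range, not_lt] at hp
    rw [hempty p (by omega), Set.ncard_empty]
    simp
  rw [key F.card (le_max_left _ _) (Or.inl rfl), key n (le_max_right _ _) (Or.inr rfl)]

theorem sum_perm3 (f : Equiv.Perm (Fin 3) → ℤ) : ∑ σ, f σ =
    f 1 + f (Equiv.swap 0 1) + f (Equiv.swap 1 2) + f (Equiv.swap 0 2) +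
      f (Equiv.swap 0 1 * Equiv.swap 1 2) + f (Equiv.swap 1 2 * Equiv.swap 0 1) := by
  have h : (Finset.univ : Finset (Equiv.Perm (Fin 3))) =
      {1, Equiv.swap 0 1, Equiv.swap 1 2, Equiv.swap 0 2,
        Equiv.swap 0 1 * Equiv.swap 1 2, Equiv.swap 1 2 * Equiv.swap 0 1} := by decide
  rw [h, Finset.sum_insert (by decide), Finset.sum_insert (by decide),
    Finset.sum_insert (by decide), Finset.sum_insert (by decide), Finset.sum_insert (by decide),
    Finset.sum_singleton]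
  ring

theorem sum_perm2 (f : Equiv.Perm (Fin 2) → ℤ) : ∑ σ, f σ = f 1 + f (Equiv.swap 0 1) := by
  have h : (Finset.univ : Finset (Equiv.Perm (Fin 2))) = {1, Equiv.swap 0 1} := by decide
  rw [h, Finset.sum_insert (by decide), Finset.sum_singleton]

/-- the expansion of `e0 3` -/
theorem e0_three (f : (Fin 3 → ℤ) → ℤ) : e0 3 f =
    f ![0, 0, 0] - f ![1, -1, 0] - f ![0, 1, -1] - f ![2, 0, -2] + f ![1, 1, -2] +
      f ![2, -1, -1] := by
  rw [e0, sum_perm3]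
  have h1 : (fun i : Fin 3 => ((((1 : Equiv.Perm (Fin 3)) i : Fin 3) : ℕ) : ℤ) -
      ((i : ℕ) : ℤ)) = ![0, 0, 0] := by
    funext i; fin_cases i <;> decide
  have h2 : (fun i : Fin 3 => (((Equiv.swap (0 : Fin 3) 1 i : Fin 3) : ℕ) : ℤ) -
      ((i : ℕ) : ℤ)) = ![1, -1, 0] := by
    funext i; fin_cases i <;> decide
  have h3 : (fun i : Fin 3 => (((Equiv.swap (1 : Fin 3) 2 i : Fin 3) : ℕ) : ℤ) -
      ((i : ℕ) : ℤ)) = ![0, 1, -1] := by
    funext i; fin_cases i <;> decide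
  have h4 : (fun i : Fin 3 => (((Equiv.swap (0 : Fin 3) 2 i : Fin 3) : ℕ) : ℤ) -
      ((i : ℕ) : ℤ)) = ![2, 0, -2] := by
    funext i; fin_cases i <;> decide
  have h5 : (fun i : Fin 3 => ((((Equiv.swap (0 : Fin 3) 1 * Equiv.swap (1 : Fin 3) 2) i :
      Fin 3) : ℕ) : ℤ) - ((i : ℕ) : ℤ)) = ![1, 1, -2] := by
    funext i; fin_cases i <;> decide
  have h6 : (fun i : Fin 3 => ((((Equiv.swap (1 : Fin 3) 2 * Equiv.swap (0 : Fin 3) 1) i :
      Fin 3) : ℕ) : ℤ) - ((i : ℕ) : ℤ)) = ![2, -1, -1] := by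
    funext i; fin_cases i <;> decide
  have s2 : Equiv.Perm.sign (Equiv.swap (0 : Fin 3) 1) = -1 := by decide
  have s3 : Equiv.Perm.sign (Equiv.swap (1 : Fin 3) 2) = -1 := by decide
  have s4 : Equiv.Perm.sign (Equiv.swap (0 : Fin 3) 2) = -1 := by decide
  rw [h1, h2, h3, h4, h5, h6, Equiv.Perm.sign_mul, Equiv.Perm.sign_mul, s2, s3, s4,
    Equiv.Perm.sign_one]
  push_cast
  ring

/-- the expansion of `e0 2` -/
theorem e0_two (f : (Fin 2 → ℤ) → ℤ) : e0 2 f = f ![0, 0] - f ![1, -1] := by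
  rw [e0, sum_perm2]
  have h1 : (fun i : Fin 2 => ((((1 : Equiv.Perm (Fin 2)) i : Fin 2) : ℕ) : ℤ) -
      ((i : ℕ) : ℤ)) = ![0, 0] := by
    funext i; fin_cases i <;> decide
  have h2 : (fun i : Fin 2 => (((Equiv.swap (0 : Fin 2) 1 i : Fin 2) : ℕ) : ℤ) -
      ((i : ℕ) : ℤ)) = ![1, -1] := by
    funext i; fin_cases i <;> decide
  have s2 : Equiv.Perm.sign (Equiv.swap (0 : Fin 2) 1) = -1 := by decide
  rw [h1, h2, s2, Equiv.Perm.sign_one]
  push_cast
  ring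

/-- `e0 3` of a function of the coordinates in the simple roots -/
theorem e0_e03 (c : ℤ × ℤ → ℤ) (f : (Fin 3 → ℤ) → ℤ)
    (h : ∀ μ : Fin 3 → ℤ, ∑ j, μ j = 0 → c (μ 0, -μ 2) = f μ) : e03 c = e0 3 f := by
  rw [e0_three, e03, ← h ![0, 0, 0] (by simp [Fin.sum_univ_three]),
    ← h ![1, -1, 0] (by simp [Fin.sum_univ_three]),
    ← h ![0, 1, -1] (by simp [Fin.sum_univ_three]),
    ← h ![2, 0, -2] (by simp [Fin.sum_univ_three]),
    ← h ![1, 1, -2] (by simp [Fin.sum_univ_three]),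
    ← h ![2, -1, -1] (by simp [Fin.sum_univ_three])]
  simp
  ring

theorem epsd_sum {N : ℕ} (i j : Fin N) : ∑ l, epsd i j l = 0 := by
  simp [epsd, Pi.single_apply]

/-- `egl 3` of a function of the coordinates in the simple roots -/
theorem egl_egl3 (c : ℤ × ℤ → ℤ) (f : (Fin 3 → ℤ) → ℤ)
    (h : ∀ μ : Fin 3 → ℤ, ∑ j, μ j = 0 → c (μ 0, -μ 2) = f μ) : egl3 c = egl 3 f := by
  have key : ∀ i j : Fin 3, (e0 3 fun μ => f (μ + epsd i j)) =
      e03 fun g => c (g + (epsd i j 0, -epsd i j 2)) := by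
    intro i j
    symm
    refine e0_e03 _ _ ?_
    intro μ hμ
    rw [← h (μ + epsd i j) (by
      simp only [Pi.add_apply, Finset.sum_add_distrib]
      rw [hμ, epsd_sum, add_zero])]
    congr 1
    ext
    · simp
    · simp; ring
  rw [egl]
  simp_rw [key]
  rw [Fin.sum_univ_three, Fin.sum_univ_three, Fin.sum_univ_three, Fin.sum_univ_three, egl3, glw]
  simp only [epsd, Pi.sub_apply, Pi.single_apply]
  simp
  ring


theorem chi3 {k L : Type u} [Field k] [CharZero k] [LieRing L] [LieAlgebra k L]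
    {I : Type u} (H : HData k L 3 I) (F : Finset I) (N0 n : ℕ) (hn : n ≤ N0)
    (hF : ∀ i, i ∈ F ↔ (H.γ i).1 ≤ N0) (hsum : ∀ i, ∑ j, (H.γ i).2 j = 0)
    (prod_coeff : ∀ (w : I → ℤ × ℤ) (n : ℕ) (g : ℤ × ℤ),
      (PowerSeries.coeff n (eprod F (fun i => (H.γ i).1) w)).coeff g =
      ∑ p ∈ Finset.range (F.card + 1), (-1) ^ p *
        ({S : Finset I | S ⊆ F ∧ S.card = p ∧ ∑ i ∈ S, (H.γ i).1 = n ∧
          ∑ i ∈ S, w i = g}.ncard : ℤ)) :
    (e03 fun g => (PowerSeries.coeff n (eprod F (fun i => (H.γ i).1)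
      fun i => ((H.γ i).2 0, -(H.γ i).2 2))).coeff g) = e0 3 (H.chi n) ∧
    (egl3 fun g => (PowerSeries.coeff n (eprod F (fun i => (H.γ i).1)
      fun i => ((H.γ i).2 0, -(H.γ i).2 2))).coeff g) = egl 3 (H.chi n) := by
  have key : ∀ μ : Fin 3 → ℤ, ∑ j, μ j = 0 →
      (fun g => (PowerSeries.coeff n (eprod F (fun i => (H.γ i).1)
        fun i => ((H.γ i).2 0, -(H.γ i).2 2))).coeff g) (μ 0, -μ 2) = H.chi n μ := by
    intro μ hμ
    show (PowerSeries.coeff n (eprod F (fun i => (H.γ i).1)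
        fun i => ((H.γ i).2 0, -(H.γ i).2 2))).coeff (μ 0, -μ 2) = H.chi n μ
    rw [prod_coeff]
    refine chi_eq H F N0 n hn hF _ _ μ ?_
    intro S
    have hs : ∑ j, (∑ i ∈ S, (H.γ i).2) j = 0 := by
      simp only [Finset.sum_apply]
      rw [Finset.sum_comm]
      exact Finset.sum_eq_zero fun i _ => hsum i
    have h1 : (∑ i ∈ S, (((H.γ i).2 0, -(H.γ i).2 2) : ℤ × ℤ)) =
        ((∑ i ∈ S, (H.γ i).2) 0, -(∑ i ∈ S, (H.γ i).2) 2) := by
      rw [Prod.ext_iff, Prod.fst_sum, Prod.snd_sum]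
      simp [Finset.sum_apply]
    rw [h1, Prod.mk.injEq]
    rw [Fin.sum_univ_three] at hs hμ
    constructor
    · rintro ⟨h2, h3⟩
      funext j
      fin_cases j
      · exact h2
      · show (∑ i ∈ S, (H.γ i).2) 1 = μ 1
        omega
      · show (∑ i ∈ S, (H.γ i).2) 2 = μ 2
        omega
    · intro h
      rw [h]
      exact ⟨rfl, rfl⟩
  exact ⟨e0_e03 _ _ key, egl_egl3 _ _ key⟩

theorem chi2 {k L : Type u} [Field k] [CharZero k] [LieRing L] [LieAlgebra k L]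
    {I : Type u} (H : HData k L 2 I) (F : Finset I) (N0 n : ℕ) (hn : n ≤ N0)
    (hF : ∀ i, i ∈ F ↔ (H.γ i).1 ≤ N0) (hsum : ∀ i, ∑ j, (H.γ i).2 j = 0)
    (prod_coeff : ∀ (w : I → ℤ) (n : ℕ) (g : ℤ),
      (PowerSeries.coeff n (eprod F (fun i => (H.γ i).1) w)).coeff g =
      ∑ p ∈ Finset.range (F.card + 1), (-1) ^ p *
        ({S : Finset I | S ⊆ F ∧ S.card = p ∧ ∑ i ∈ S, (H.γ i).1 = n ∧
          ∑ i ∈ S, w i = g}.ncard : ℤ)) (f : ℤ → ℤ)
    (hf : f = fun g => (PowerSeries.coeff n (eprod F (fun i => (H.γ i).1)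
      fun i => (H.γ i).2 0)).coeff g) :
    f 0 - f 1 = e0 2 (H.chi n) ∧ f 0 - f 1 - f 2 + f (-1) = egl 2 (H.chi n) := by
  have key : ∀ μ : Fin 2 → ℤ, ∑ j, μ j = 0 → f (μ 0) = H.chi n μ := by
    intro μ hμ
    rw [hf]
    show (PowerSeries.coeff n (eprod F (fun i => (H.γ i).1)
        fun i => (H.γ i).2 0)).coeff (μ 0) = H.chi n μ
    rw [prod_coeff]
    refine chi_eq H F N0 n hn hF _ _ μ ?_
    intro S
    have hs : ∑ j, (∑ i ∈ S, (H.γ i).2) j = 0 := by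
      simp only [Finset.sum_apply]
      rw [Finset.sum_comm]
      exact Finset.sum_eq_zero fun i _ => hsum i
    have h1 : (∑ i ∈ S, (H.γ i).2 0) = (∑ i ∈ S, (H.γ i).2) 0 := by
      simp [Finset.sum_apply]
    rw [h1]
    rw [Fin.sum_univ_two] at hs hμ
    constructor
    · intro h2
      funext j
      fin_cases j
      · exact h2
      · show (∑ i ∈ S, (H.γ i).2) 1 = μ 1
        omega
    · intro h
      rw [h]
  have hc : ∀ i j : Fin 2, (e0 2 fun μ => H.chi n (μ + epsd i j)) =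
      f (epsd i j 0) - f (1 + epsd i j 0) := by
    intro i j
    have h0 := epsd_sum i j
    rw [e0_two, ← key (![0, 0] + epsd i j) (by
      simp only [Pi.add_apply, Finset.sum_add_distrib, h0]
      simp [Fin.sum_univ_two]), ← key (![1, -1] + epsd i j) (by
      simp only [Pi.add_apply, Finset.sum_add_distrib, h0]
      simp [Fin.sum_univ_two])]
    simp
  constructor
  · rw [e0_two, ← key ![0, 0] (by simp [Fin.sum_univ_two]),
      ← key ![1, -1] (by simp [Fin.sum_univ_two])]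
    simp
  · rw [egl]
    simp_rw [hc]
    rw [Fin.sum_univ_two, Fin.sum_univ_two, Fin.sum_univ_two]
    simp only [epsd, Pi.sub_apply, Pi.single_apply]
    simp
    ring

end Pool.Agent.Y815.KM
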